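import Pool.Agent.TH880.NF.Dens

/-!
Countable intersections of non-empty open subsets of an irreducible variety over `ℂ` are
non-empty (through Noether normalization and the uncountability of `ℂ`), with versions for
tuples of points in a chart of an irreducible projective variety.
-/

set_option autoImplicit false

open MvPolynomial Filter Topology

namespace Pool.Agent.TH880.NF

open Pool.Agent.W607 Pool.Agent.W601.Curve

variable {ι : Type} [Countable ι]

theorem exists_eval_ne_zero (s : ℕ) : ∀ (b : ι → MvPolynomial (Fin s) ℂ), (∀ k, b k ≠ 0) →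
    ∃ τ : Fin s → ℂ, ∀ k, eval τ (b k) ≠ 0 := by
  induction s with
  | zero =>
    intro b hb
    refine ⟨fun i => i.elim0, fun k h => hb k ?_⟩
    rw [eq_C_of_isEmpty (b k)] at h ⊢
    rw [eval_C] at h
    rw [h, C_0]
  | succ s ih =>
    intro b hb
    have hp : ∀ k, finSuccEquiv ℂ s (b k) ≠ 0 := fun k => by
      rw [Ne, EmbeddingLike.map_eq_zero_iff]
      exact hb k
    obtain ⟨τ, hτ⟩ := ih (fun k => (finSuccEquiv ℂ s (b k)).leadingCoeff) fun k =>
      Polynomial.leadingCoeff_ne_zero.2 (hp k)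
    have hq : ∀ k, (finSuccEquiv ℂ s (b k)).map (eval τ) ≠ 0 := fun k h => by
      apply hτ k
      have h1 := congrArg (fun p => Polynomial.coeff p (finSuccEquiv ℂ s (b k)).natDegree) h
      simp only [Polynomial.coeff_map, Polynomial.coeff_zero] at h1
      exact h1
    have hcount : (⋃ k, {t : ℂ | ((finSuccEquiv ℂ s (b k)).map (eval τ)).IsRoot t}).Countable := by
      refine Set.countable_iUnion fun k => ?_
      exact (Polynomial.finite_setOfPred_isRoot (hq k)).countable
    obtain ⟨t, ht⟩ : ∃ t : ℂ, t ∉ ⋃ k, {t : ℂ |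
        ((finSuccEquiv ℂ s (b k)).map (eval τ)).IsRoot t} := by
      by_contra hcon
      push Not at hcon
      have : (Set.univ : Set ℂ).Countable := hcount.mono fun t _ => hcon t
      exact not_countable_complex this
    refine ⟨Fin.cons t τ, fun k h => ht ?_⟩
    rw [eval_eq_eval_mv_eval'] at h
    exact Set.mem_iUnion.2 ⟨k, h⟩

theorem exists_point_countable {M : ℕ} (J : Ideal (MvPolynomial (Fin (M + 1)) ℂ))
    (hJ : J.IsPrime) (g : ι → MvPolynomial (Fin (M + 1)) ℂ) (hg : ∀ k, g k ∉ J) :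
    ∃ z : Fin (M + 1) → ℂ, (∀ F ∈ J, eval z F = 0) ∧ ∀ k, eval z (g k) ≠ 0 := by
  let R := MvPolynomial (Fin (M + 1)) ℂ ⧸ J
  have hdom : IsDomain R := Ideal.Quotient.isDomain J
  obtain ⟨s, φ, hinj, hint⟩ := exists_integral_inj_algHom_of_fg ℂ R
  let _ := φ.toRingHom.toAlgebra
  have halg : Algebra.IsIntegral (MvPolynomial (Fin s) ℂ) R := ⟨hint⟩
  have hb : ∀ k, ∃ b : MvPolynomial (Fin s) ℂ, b ≠ 0 ∧
      φ b ∈ Ideal.span {Ideal.Quotient.mk J (g k)} := by
    intro k
    have h0 : Ideal.Quotient.mk J (g k) ≠ 0 := by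
      rw [Ne, Ideal.Quotient.eq_zero_iff_mem]
      exact hg k
    have h1 := Ideal.comap_ne_bot_of_integral_mem (R := MvPolynomial (Fin s) ℂ) h0
      (Ideal.mem_span_singleton_self (Ideal.Quotient.mk J (g k))) (hint _)
    obtain ⟨b, hb, hb0⟩ := Submodule.exists_mem_ne_zero_of_ne_bot h1
    exact ⟨b, hb0, hb⟩
  choose b hb0 hb1 using hb
  obtain ⟨τ, hτ⟩ := exists_eval_ne_zero s b hb0
  have hmax : (vanishingIdeal ℂ {τ} : Ideal (MvPolynomial (Fin s) ℂ)).IsMaximal :=
    isMaximal_iff_eq_vanishingIdeal_singleton.2 ⟨τ, rfl⟩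
  obtain ⟨Q, hQm, hQ⟩ := Ideal.exists_ideal_over_maximal_of_isIntegral (S := R)
    (vanishingIdeal ℂ {τ} : Ideal (MvPolynomial (Fin s) ℂ)) (by
      have : RingHom.ker (algebraMap (MvPolynomial (Fin s) ℂ) R) = ⊥ :=
        (RingHom.injective_iff_ker_eq_bot _).1 hinj
      rw [this]
      exact bot_le)
  have hQ' : (Q.comap (Ideal.Quotient.mk J)).IsMaximal :=
    Ideal.comap_isMaximal_of_surjective _ Ideal.Quotient.mk_surjective
  obtain ⟨z, hz⟩ := isMaximal_iff_eq_vanishingIdeal_singleton.1 hQ'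
  have hmem : ∀ F : MvPolynomial (Fin (M + 1)) ℂ, Ideal.Quotient.mk J F ∈ Q ↔ eval z F = 0 := by
    intro F
    have h1 : F ∈ Q.comap (Ideal.Quotient.mk J) ↔ F ∈ vanishingIdeal ℂ {z} := by rw [hz]
    rw [Ideal.mem_comap, mem_vanishingIdeal_singleton_iff] at h1
    exact h1
  refine ⟨z, fun F hF => ?_, fun k hk => ?_⟩
  · rw [← hmem, Ideal.Quotient.eq_zero_iff_mem.2 hF]
    exact zero_mem _
  · have h1 : Ideal.Quotient.mk J (g k) ∈ Q := (hmem _).2 hk
    have h2 : φ (b k) ∈ Q := (Ideal.span_singleton_le_iff_mem _).2 h1 (hb1 k)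
    have h3 : b k ∈ Q.comap (algebraMap (MvPolynomial (Fin s) ℂ) R) := h2
    rw [hQ, mem_vanishingIdeal_singleton_iff] at h3
    exact hτ k h3

/-- common non-vanishing in a chart of an irreducible projective variety -/
theorem exists_chart_point_countable {M : ℕ} (J : Ideal (MvPolynomial (Fin (M + 1)) ℂ))
    (hJ : J.IsPrime) (hJh : Hmg J) (ℓ : MvPolynomial (Fin (M + 1)) ℂ) (hℓ : ℓ.IsHomogeneous 1)
    (hℓJ : ℓ ∉ J) (F : ι → MvPolynomial (Fin (M + 1)) ℂ)
    (hF : ∀ k, ∃ y0 : Fin (M + 1) → ℂ, (∀ g ∈ J, eval y0 g = 0) ∧ eval y0 ℓ = 1 ∧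
      eval y0 (F k) ≠ 0) :
    ∃ y : Fin (M + 1) → ℂ, (∀ g ∈ J, eval y g = 0) ∧ eval y ℓ = 1 ∧
      ∀ k, eval y (F k) ≠ 0 := by
  set D : ι → ℕ := fun k => (F k).totalDegree with hD
  set Fh : ι → MvPolynomial (Fin (M + 1)) ℂ := fun k =>
    ∑ i ∈ Finset.range (D k + 1), ℓ ^ (D k - i) * homogeneousComponent i (F k) with hFh
  have hev : ∀ k (z : Fin (M + 1) → ℂ), eval z (F k) =
      ∑ i ∈ Finset.range (D k + 1), eval z (homogeneousComponent i (F k)) := by
    intro k z
    conv_lhs => rw [← sum_homogeneousComponent (F k)]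
    rw [map_sum]
  have hFhJ : ∀ k, Fh k ∉ J := by
    intro k h
    obtain ⟨y0, hy0, hy1, hk⟩ := hF k
    apply hk
    have h1 := hy0 _ h
    rw [hFh, map_sum] at h1
    rw [hev, ← h1]
    refine Finset.sum_congr rfl fun i _ => ?_
    rw [map_mul, map_pow, hy1, one_pow, one_mul]
  have hprod : ∀ k, Fh k * ℓ ∉ J := by
    intro k h
    rcases hJ.mem_or_mem h with h | h
    · exact hFhJ k h
    · exact hℓJ h
  obtain ⟨z, hz, hz0⟩ := exists_point_countable (ι := Option ι) J hJ
    (fun k => k.elim ℓ fun k => Fh k * ℓ) (fun k => by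
      cases k with
      | none => exact hℓJ
      | some k => exact hprod k)
  have hc : eval z ℓ ≠ 0 := hz0 none
  set c := eval z ℓ with hcdef
  refine ⟨fun i => c⁻¹ * z i, fun g hg => ?_, ?_, fun k => ?_⟩
  · rw [← sum_homogeneousComponent g, map_sum]
    refine Finset.sum_eq_zero fun k _ => ?_
    rw [eval_smul (homogeneousComponent_isHomogeneous k g), hz _ (hJh g hg k), mul_zero]
  · rw [eval_smul hℓ, pow_one, ← hcdef, inv_mul_cancel₀ hc]
  · rw [hev]
    have hzF : eval z (Fh k) ≠ 0 := by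
      have h1 := hz0 (some k)
      simp only [Option.elim] at h1
      rw [map_mul] at h1
      exact left_ne_zero_of_mul h1
    have h1 : ∑ i ∈ Finset.range (D k + 1),
        eval (fun i => c⁻¹ * z i) (homogeneousComponent i (F k)) =
        (c⁻¹) ^ D k * eval z (Fh k) := by
      rw [hFh, map_sum, Finset.mul_sum]
      refine Finset.sum_congr rfl fun i hi => ?_
      rw [eval_smul (homogeneousComponent_isHomogeneous i (F k)), map_mul, map_pow, ← hcdef]
      have hi' : i ≤ D k := Nat.lt_succ_iff.1 (Finset.mem_range.1 hi)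
      have h2 : (c⁻¹) ^ D k * c ^ (D k - i) = (c⁻¹) ^ i := by
        have h3 : (c⁻¹) ^ D k = (c⁻¹) ^ i * (c⁻¹) ^ (D k - i) := by
          rw [← pow_add]; congr 1; omega
        rw [h3, mul_assoc, ← mul_pow, inv_mul_cancel₀ hc, one_pow, mul_one]
      rw [← mul_assoc, h2]
    rw [h1]
    exact mul_ne_zero (pow_ne_zero _ (inv_ne_zero hc)) hzF

/-- common non-vanishing for tuples of points -/
theorem exists_chart_tuple_countable {M n : ℕ} (J : Ideal (MvPolynomial (Fin (M + 1)) ℂ))
    (hJ : J.IsPrime) (hJh : Hmg J) (ℓ : MvPolynomial (Fin (M + 1)) ℂ) (hℓ : ℓ.IsHomogeneous 1)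
    (hℓJ : ℓ ∉ J) (H : ι → MvPolynomial (Fin n × Fin (M + 1)) ℂ)
    (hH : ∀ k, ∃ y0 : Fin n → Fin (M + 1) → ℂ, (∀ q, ∀ g ∈ J, eval (y0 q) g = 0) ∧
      (∀ q, eval (y0 q) ℓ = 1) ∧ eval (fun p => y0 p.1 p.2) (H k) ≠ 0) :
    ∃ y : Fin n → Fin (M + 1) → ℂ, (∀ q, ∀ g ∈ J, eval (y q) g = 0) ∧
      (∀ q, eval (y q) ℓ = 1) ∧ ∀ k, eval (fun p => y p.1 p.2) (H k) ≠ 0 := by
  classical
  obtain ⟨y00, hy00, hy01, -⟩ := exists_chart_point_countable (ι := Empty) J hJ hJh ℓ hℓ hℓJ
    (fun k => k.elim) (fun k => k.elim)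
  have key : ∀ s : Finset (Fin n), ∃ yc : Fin n → Fin (M + 1) → ℂ,
      (∀ q, ∀ g ∈ J, eval (yc q) g = 0) ∧ (∀ q, eval (yc q) ℓ = 1) ∧
      ∀ k, ∃ y : Fin n → Fin (M + 1) → ℂ, (∀ q, ∀ g ∈ J, eval (y q) g = 0) ∧
        (∀ q, eval (y q) ℓ = 1) ∧ eval (fun p => y p.1 p.2) (H k) ≠ 0 ∧ ∀ q ∈ s, y q = yc q := by
    intro s
    induction s using Finset.induction_on with
    | empty =>
      refine ⟨fun _ => y00, fun _ => hy00, fun _ => hy01, fun k => ?_⟩
      obtain ⟨y, h1, h2, h3⟩ := hH k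
      exact ⟨y, h1, h2, h3, by simp⟩
    | insert q s hq ih =>
      obtain ⟨yc, hc1, hc2, hk⟩ := ih
      choose y h1 h2 h3 h4 using hk
      set F : ι → MvPolynomial (Fin (M + 1)) ℂ := fun k =>
        aeval (fun p : Fin n × Fin (M + 1) =>
          if p.1 = q then (X p.2 : MvPolynomial (Fin (M + 1)) ℂ) else C (y k p.1 p.2)) (H k)
        with hF
      have hev : ∀ k (z : Fin (M + 1) → ℂ), eval z (F k) =
          eval (fun p => Function.update (y k) q z p.1 p.2) (H k) := by
        intro k z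
        have h5 : ((aeval z : MvPolynomial (Fin (M + 1)) ℂ →ₐ[ℂ] ℂ).comp
            (aeval (fun p : Fin n × Fin (M + 1) =>
              if p.1 = q then (X p.2 : MvPolynomial (Fin (M + 1)) ℂ) else C (y k p.1 p.2)))) =
            (aeval (fun p : Fin n × Fin (M + 1) => Function.update (y k) q z p.1 p.2) :
              MvPolynomial (Fin n × Fin (M + 1)) ℂ →ₐ[ℂ] ℂ) := by
          refine algHom_ext fun p => ?_
          simp only [AlgHom.comp_apply, aeval_X]
          by_cases hp : p.1 = q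
          · rw [if_pos hp, aeval_X, hp, Function.update_self]
          · rw [if_neg hp, Function.update_of_ne hp]
            exact aeval_C _ _
        exact DFunLike.congr_fun h5 (H k)
      obtain ⟨z, hz1, hz2, hz3⟩ := exists_chart_point_countable J hJ hJh ℓ hℓ hℓJ F (fun k =>
        ⟨y k q, h1 k q, h2 k q, by
          rw [hev, Function.update_eq_self]
          exact h3 k⟩)
      refine ⟨Function.update yc q z, fun q' => ?_, fun q' => ?_, fun k =>
        ⟨Function.update (y k) q z, fun q' => ?_, fun q' => ?_, ?_, fun q' hq' => ?_⟩⟩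
      · by_cases h : q' = q
        · subst h; rwa [Function.update_self]
        · rw [Function.update_of_ne h]; exact hc1 q'
      · by_cases h : q' = q
        · subst h; rwa [Function.update_self]
        · rw [Function.update_of_ne h]; exact hc2 q'
      · by_cases h : q' = q
        · subst h; rwa [Function.update_self]
        · rw [Function.update_of_ne h]; exact h1 k q'
      · by_cases h : q' = q
        · subst h; rwa [Function.update_self]
        · rw [Function.update_of_ne h]; exact h2 k q'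
      · have := hz3 k
        rwa [hev] at this
      · by_cases h : q' = q
        · subst h; rw [Function.update_self, Function.update_self]
        · rw [Function.update_of_ne h, Function.update_of_ne h]
          exact h4 k q' ((Finset.mem_insert.1 hq').resolve_left h)
  obtain ⟨yc, hc1, hc2, hk⟩ := key Finset.univ
  refine ⟨yc, hc1, hc2, fun k => ?_⟩
  obtain ⟨y, -, -, h3, h4⟩ := hk k
  have : y = yc := funext fun q => h4 q (Finset.mem_univ q)
  rwa [this] at h3

end Pool.Agent.TH880.NF
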