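import Pool.Agent.TH880.NF.Cnt
import Pool.Agent.TH880.NB.AsmT

/-!
The Seshadri inequality for the pull back of `O(1)` under a birational map, at very general
points of `X` (curves, degrees and multiplicities on `X`).
-/

set_option autoImplicit false

open MvPolynomial Filter Topology

namespace Pool.Agent.TH880.NF

open Pool.Agent.W607 Pool.Agent.W601.Curve Pool.Agent.TH880.NB

variable {N M : ℕ}

theorem homogeneousComponent_aeval {d : ℕ} (hd : 1 ≤ d)
    {f : Fin (M + 1) → MvPolynomial (Fin (N + 1)) ℂ} (hf : ∀ j, (f j).IsHomogeneous d)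
    (F : MvPolynomial (Fin (M + 1)) ℂ) (t : ℕ) :
    homogeneousComponent (d * t) (aeval f F) = aeval f (homogeneousComponent t F) := by
  conv_lhs => rw [← sum_homogeneousComponent F]
  rw [map_sum, map_sum]
  have h1 : ∀ i, homogeneousComponent (d * t) (aeval f (homogeneousComponent i F)) =
      if i = t then aeval f (homogeneousComponent t F) else 0 := by
    intro i
    have h2 : (aeval f (homogeneousComponent i F)).IsHomogeneous (d * i) :=
      (homogeneousComponent_isHomogeneous i F).aeval f hf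
    rw [homogeneousComponent_of_mem ((mem_homogeneousSubmodule _ _).2 h2)]
    by_cases hit : i = t
    · subst hit; rw [if_pos rfl, if_pos rfl]
    · rw [if_neg hit, if_neg]
      intro h3
      exact hit (Nat.eq_of_mul_eq_mul_left (by omega) h3).symm
  simp only [h1]
  rw [Finset.sum_ite_eq' (Finset.range (F.totalDegree + 1)) t]
  by_cases ht : t ∈ Finset.range (F.totalDegree + 1)
  · rw [if_pos ht]
  · rw [if_neg ht]
    have h2 : homogeneousComponent t F = 0 := by
      refine homogeneousComponent_eq_zero t F ?_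
      have := Finset.mem_range.not.1 ht
      omega
    rw [h2, map_zero]

theorem hmg_comap {d : ℕ} (hd : 1 ≤ d)
    {f : Fin (M + 1) → MvPolynomial (Fin (N + 1)) ℂ} (hf : ∀ j, (f j).IsHomogeneous d)
    {P : Ideal (MvPolynomial (Fin (N + 1)) ℂ)} (hP : Hmg P) :
    Hmg (P.comap (aeval f : MvPolynomial (Fin (M + 1)) ℂ →ₐ[ℂ]
      MvPolynomial (Fin (N + 1)) ℂ)) := by
  intro F hF t
  rw [Ideal.mem_comap] at hF ⊢
  rw [← homogeneousComponent_aeval hd hf]
  exact hP _ hF _

theorem eval_aeval (f : Fin (M + 1) → MvPolynomial (Fin (N + 1)) ℂ) (w : Fin (N + 1) → ℂ)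
    (F : MvPolynomial (Fin (M + 1)) ℂ) :
    eval w (aeval f F) = eval (fun j => eval w (f j)) F := by
  have h3 : (aeval (fun j => eval w (f j)) : MvPolynomial (Fin (M + 1)) ℂ →ₐ[ℂ] ℂ) =
      (aeval w : MvPolynomial (Fin (N + 1)) ℂ →ₐ[ℂ] ℂ).comp (aeval f) := by
    refine algHom_ext fun i => ?_
    simp only [aeval_X, AlgHom.comp_apply]
    rfl
  exact (DFunLike.congr_fun h3 F).symm

theorem eval_ren {n : ℕ} (q : Fin n) (w : Fin n → Fin (N + 1) → ℂ)
    (F : MvPolynomial (Fin (N + 1)) ℂ) :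
    eval (fun p : Fin n × Fin (N + 1) => w p.1 p.2) (rename (fun i => (q, i)) F) =
      eval (w q) F := by
  rw [eval_rename]
  rfl

theorem nef_general (I : Ideal (MvPolynomial (Fin (N + 1)) ℂ)) (hI : I.IsPrime) (hIh : Hmg I)
    {d a b : ℕ} {f : Fin (M + 1) → MvPolynomial (Fin (N + 1)) ℂ}
    {u : MvPolynomial (Fin (N + 1)) ℂ} {G : Fin (N + 1) → MvPolynomial (Fin (M + 1)) ℂ}
    (hB : BirData I d a b f u G) (hGa : ∀ i, (G i).IsHomogeneous a) (δ : ℝ) (hδ : 0 < δ)
    (hgr : Tendsto (fun t : ℕ => 2 * (hilb (I.comap (aeval f : MvPolynomial (Fin (M + 1)) ℂ →ₐ[ℂ]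
      MvPolynomial (Fin (N + 1)) ℂ)) t : ℝ) / (t : ℝ) ^ 2) atTop (𝓝 δ)) :
    ∃ (r : ℕ) (ℓ : MvPolynomial (Fin (M + 1)) ℂ), 1 ≤ r ∧ (r : ℝ) = δ ∧ ℓ.IsHomogeneous 1 ∧
      ∀ n : ℕ, 1 ≤ n → (∀ ε : ℝ, 0 < ε → Tor r n ε) →
      ∃ H : ℕ → MvPolynomial (Fin n × Fin (N + 1)) ℂ,
      (∃ w : Fin n → Fin (N + 1) → ℂ, (∀ q, ∀ F ∈ I, eval (w q) F = 0) ∧
        (∀ q, eval (w q) (aeval f ℓ) = 1) ∧ ∀ k, eval (fun p => w p.1 p.2) (H k) ≠ 0) ∧
      ∀ w : Fin n → Fin (N + 1) → ℂ, (∀ q, ∀ F ∈ I, eval (w q) F = 0) →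
        (∀ q, eval (w q) (aeval f ℓ) = 1) → (∀ k, eval (fun p => w p.1 p.2) (H k) ≠ 0) →
        Function.Injective (fun q j => eval (w q) (f j)) ∧
        ∀ P : Ideal (MvPolynomial (Fin (N + 1)) ℂ), P.IsPrime → I ≤ P → ∀ e : ℝ,
        Tendsto (fun t : ℕ => (hilb (P.comap (aeval f : MvPolynomial (Fin (M + 1)) ℂ →ₐ[ℂ]
          MvPolynomial (Fin (N + 1)) ℂ)) t : ℝ) / t) atTop (𝓝 e) → ∀ m : Fin n → ℝ,
        (∀ q, Tendsto (fun M : ℕ => 2 * (len P (w q) M : ℝ) / (M : ℝ) ^ 2) atTop (𝓝 (m q))) →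
        ∑ q, m q ≤ √(n / δ) * e := by
  classical
  have hd : 1 ≤ d := by
    rcases Nat.eq_zero_or_pos d with h0 | h0
    · have := hB.deg
      rw [h0, mul_zero] at this
      omega
    · exact h0
  set φ : MvPolynomial (Fin (M + 1)) ℂ →ₐ[ℂ] MvPolynomial (Fin (N + 1)) ℂ := aeval f with hφ
  have hJ : (I.comap φ).IsPrime := Ideal.IsPrime.comap φ
  have hJh : Hmg (I.comap φ) := hmg_comap hd hB.form hIh
  obtain ⟨r, ℓ, hr, hrδ, hℓ, hsepX⟩ := sepXT (I.comap φ) hJ hJh δ hδ hgr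
  refine ⟨r, ℓ, hr, hrδ, hℓ, fun n hn hTor => ?_⟩
  have hn0 : 0 < (n : ℝ) := by exact_mod_cast hn
  choose E s hs hnum w0 hw01 hw0I hsep0 using fun k : ℕ =>
    hsepX n (1 / ((k : ℝ) + 1)) (hTor _ (by positivity))
  choose H hH0 hH using fun k => Sep.exists_open (I := I.comap φ) (ℓ := ℓ) (E := E k) (s := s k)
    (w0 := w0 k) (hsep0 k)
  have hℓJ : ℓ ∉ I.comap φ := fun h => by
    have := hw0I 0 ⟨0, hn⟩ _ h
    rw [hw01] at this
    exact one_ne_zero this
  -- the common tuple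
  have hUJ := hB.U_notMem hI
  have hUh : (aeval G u : MvPolynomial (Fin (M + 1)) ℂ).IsHomogeneous (a * b) :=
    hB.uform.aeval G hGa
  obtain ⟨yU, hyU1, hyU2, -, hyU3⟩ := exists_chart_point (I.comap φ) hJ hJh ℓ hℓ 1 (aeval G u)
    hUh hUJ (w0 0 ⟨0, hn⟩) (hw0I 0 ⟨0, hn⟩) (hw01 0 ⟨0, hn⟩) (by rw [map_one]; exact one_ne_zero)
  obtain ⟨y, hy1, hy2, hy3⟩ := exists_chart_tuple_countable (ι := ℕ ⊕ Fin n) (n := n)
    (I.comap φ) hJ hJh ℓ hℓ hℓJ
    (fun k => Sum.elim H (fun q => rename (fun i => (q, i)) (aeval G u)) k) (fun k => by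
      rcases k with k | q
      · exact ⟨w0 k, hw0I k, hw01 k, hH0 k⟩
      · refine ⟨fun _ => yU, fun _ => hyU1, fun _ => hyU2, ?_⟩
        simp only [Sum.elim_inr]
        rw [eval_ren q (fun _ => yU)]
        exact hyU3)
  have hyU : ∀ q, eval (y q) (aeval G u) ≠ 0 := fun q => by
    have := hy3 (Sum.inr q)
    simp only [Sum.elim_inr] at this
    rwa [eval_ren] at this
  have hy0 : ∀ q, y q ≠ 0 := fun q h => by
    have h1 := hy2 q
    have h2 := eval_smul hℓ 0 (y q)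
    rw [pow_one, zero_mul] at h2
    have h3 : (fun i => 0 * y q i) = y q := by
      rw [h]; funext i; simp
    rw [h3, h1] at h2
    exact one_ne_zero h2
  choose x hx1 hx2 hx3 using fun q => hB.lift hIh (y q) (hy1 q) (hy0 q) (hyU q)
  -- the open conditions
  set H' : ℕ → MvPolynomial (Fin n × Fin (N + 1)) ℂ := fun k =>
    aeval (fun p : Fin n × Fin (M + 1) => rename (fun i => (p.1, i)) (f p.2)) (H k) *
      ∏ q, rename (fun i => (q, i)) u with hH'
  have hevH : ∀ k (w : Fin n → Fin (N + 1) → ℂ), eval (fun p => w p.1 p.2) (H' k) =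
      eval (fun p => eval (w p.1) (f p.2)) (H k) * ∏ q, eval (w q) u := by
    intro k w
    rw [hH', map_mul, map_prod]
    congr 1
    · have h3 : (aeval (fun p : Fin n × Fin (M + 1) => eval (w p.1) (f p.2)) :
          MvPolynomial (Fin n × Fin (M + 1)) ℂ →ₐ[ℂ] ℂ) =
          (aeval (fun p : Fin n × Fin (N + 1) => w p.1 p.2) :
            MvPolynomial (Fin n × Fin (N + 1)) ℂ →ₐ[ℂ] ℂ).comp
          (aeval (fun p : Fin n × Fin (M + 1) => rename (fun i => (p.1, i)) (f p.2))) := by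
        refine algHom_ext fun p => ?_
        simp only [aeval_X, AlgHom.comp_apply]
        exact (eval_ren p.1 w (f p.2)).symm
      exact (DFunLike.congr_fun h3 (H k)).symm
    · exact Finset.prod_congr rfl fun q _ => eval_ren q w u
  refine ⟨H', ⟨x, hx1, fun q => ?_, fun k => ?_⟩, fun w hwI hw1 hwH => ?_⟩
  · rw [hφ, eval_aeval]
    have : (fun j => eval (x q) (f j)) = y q := funext fun j => hx2 q j
    rw [this]
    exact hy2 q
  · rw [hevH]
    refine mul_ne_zero ?_ (Finset.prod_ne_zero_iff.2 fun q _ => hx3 q)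
    have h1 := hy3 (Sum.inl k)
    simp only [Sum.elim_inl] at h1
    have h2 : (fun p : Fin n × Fin (M + 1) => eval (x p.1) (f p.2)) = fun p => y p.1 p.2 :=
      funext fun p => hx2 p.1 p.2
    rwa [h2]
  · -- the inequality
    set z : Fin n → Fin (M + 1) → ℂ := fun q j => eval (w q) (f j) with hz
    have hHz : ∀ k, eval (fun p => z p.1 p.2) (H k) ≠ 0 := fun k => by
      have := hwH k
      rw [hevH] at this
      exact left_ne_zero_of_mul this
    have huw : ∀ q, eval (w q) u ≠ 0 := fun q => by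
      have := hwH 0
      rw [hevH] at this
      exact Finset.prod_ne_zero_iff.1 (right_ne_zero_of_mul this) q (Finset.mem_univ q)
    have hz1 : ∀ q, eval (z q) ℓ = 1 := fun q => by
      rw [hz, ← eval_aeval]
      exact hw1 q
    have hzJ : ∀ q, ∀ F ∈ I.comap φ, eval (z q) F = 0 := fun q F hF => by
      rw [hz, ← eval_aeval]
      exact hwI q _ hF
    have hinj : Function.Injective z := by
      have := hs 0
      exact (hH 0 z (hHz 0)).injective (by omega) hz1 hzJ
    refine ⟨hinj, fun P hP hIP e he m hm => ?_⟩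
    have he0 : 0 ≤ e := ge_of_tendsto' he fun t => by positivity
    have hqδ : 0 < √δ := Real.sqrt_pos.2 hδ
    have hlen : ∀ q K, len P (w q) K ≤ len (P.comap φ) (z q) K := fun q K =>
      len_le f I (w q) (fun F => onto_two φ I u G hB.inverse (aeval G u) (a * d)
        (by have := hB.deg; omega) hB.U_sub (w q) (huw q) F) P hIP K
    have hall : ∀ k : ℕ, ∑ q, m q ≤ (1 + 1 / ((k : ℝ) + 1)) * √(n / δ) * e := by
      intro k
      have hsep := hH k z (hHz k)
      have hsk := hs k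
      have h1 := curve_ineq_low (I.comap φ) ℓ hℓ (E k) (s k) (by omega) z hinj hz1 hsep
        (P.comap φ) (Ideal.IsPrime.comap φ) (Ideal.comap_mono hIP) e he
        (fun q K => len P (w q) K) hlen m hm
      rw [Real.sqrt_div hn0.le]
      have hs1 : (1 : ℝ) < s k := by
        exact_mod_cast hs k
      have h2 : ((s k : ℝ) - 1) * √δ * ∑ q, m q ≤
          ((s k : ℝ) - 1) * √δ * ((1 + 1 / ((k : ℝ) + 1)) * (√n / √δ) * e) := by
        calc ((s k : ℝ) - 1) * √δ * ∑ q, m q = (((s k : ℝ) - 1) * ∑ q, m q) * √δ := by ring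
          _ ≤ (e * E k) * √δ := mul_le_mul_of_nonneg_right h1 hqδ.le
          _ = e * (E k * √δ) := by ring
          _ ≤ e * ((1 + 1 / ((k : ℝ) + 1)) * (√n * ((s k : ℝ) - 1))) :=
            mul_le_mul_of_nonneg_left (hnum k) he0
          _ = ((s k : ℝ) - 1) * √δ * ((1 + 1 / ((k : ℝ) + 1)) * (√n / √δ) * e) := by
            field_simp
      exact le_of_mul_le_mul_left h2 (mul_pos (by linarith) hqδ)
    have h2 : Tendsto (fun k : ℕ => (1 + 1 / ((k : ℝ) + 1)) * √(n / δ) * e)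
        atTop (𝓝 ((1 + 0) * √(n / δ) * e)) :=
      ((tendsto_const_nhds.add tendsto_one_div_add_atTop_nhds_zero_nat).mul_const _).mul_const _
    rw [add_zero, one_mul] at h2
    exact ge_of_tendsto' h2 hall

end Pool.Agent.TH880.NF
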