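import Pool.Agent.TH880.NF.Local

/-!
Birational maps `(f_0 : … : f_M) : X ⇢ Y ⊂ P^M` with explicit inverse `(G_0 : … : G_N)`:
lifting of points from the cone over `Y` to the cone over `X`.
-/

set_option autoImplicit false

open MvPolynomial Filter Topology

namespace Pool.Agent.TH880.NF

open Pool.Agent.W607 Pool.Agent.W601.Curve

/-- scaling of homogeneous polynomials -/
theorem aeval_mul_left {σ A : Type*} [CommRing A] [Algebra ℂ A] {F : MvPolynomial σ ℂ} {m : ℕ}
    (hF : F.IsHomogeneous m) (u : A) (x : σ → A) :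
    aeval (fun i => u * x i) F = u ^ m * aeval x F := by
  rw [aeval_def, aeval_def, eval₂_eq, eval₂_eq, Finset.mul_sum]
  refine Finset.sum_congr rfl fun d hd => ?_
  have h : ∑ i ∈ d.support, d i = m := by
    have h1 := hF (mem_support_iff.1 hd)
    rw [← h1, Finsupp.weight_apply, Finsupp.sum]
    simp
  simp only [mul_pow, Finset.prod_mul_distrib, Finset.prod_pow_eq_pow_sum, h]
  ring

variable {N M : ℕ}

/-- data of a birational map with inverse -/
structure BirData (I : Ideal (MvPolynomial (Fin (N + 1)) ℂ)) (d a b : ℕ)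
    (f : Fin (M + 1) → MvPolynomial (Fin (N + 1)) ℂ) (u : MvPolynomial (Fin (N + 1)) ℂ)
    (G : Fin (N + 1) → MvPolynomial (Fin (M + 1)) ℂ) : Prop where
  form : ∀ j, (f j).IsHomogeneous d
  uform : u.IsHomogeneous b
  deg : b + 1 = a * d
  notMem : u ∉ I
  inverse : ∀ i, u * X i - aeval f (G i) ∈ I

variable {I : Ideal (MvPolynomial (Fin (N + 1)) ℂ)} {d a b : ℕ}
  {f : Fin (M + 1) → MvPolynomial (Fin (N + 1)) ℂ} {u : MvPolynomial (Fin (N + 1)) ℂ}
  {G : Fin (N + 1) → MvPolynomial (Fin (M + 1)) ℂ}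

/-- composition with the inverse is scaling by `u` -/
theorem BirData.comp (h : BirData I d a b f u G) {F : MvPolynomial (Fin (N + 1)) ℂ} {m : ℕ}
    (hF : F.IsHomogeneous m) : aeval f (aeval G F) - u ^ m * F ∈ I := by
  rw [← Ideal.Quotient.mk_eq_mk_iff_sub_mem]
  have h1 : ∀ i, Ideal.Quotient.mkₐ ℂ I (aeval f (G i)) =
      Ideal.Quotient.mkₐ ℂ I u * Ideal.Quotient.mkₐ ℂ I (X i) := by
    intro i
    rw [← map_mul, eq_comm]
    exact (Ideal.Quotient.mk_eq_mk_iff_sub_mem _ _).2 (h.inverse i)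
  have h2 : Ideal.Quotient.mkₐ ℂ I (aeval f (aeval G F)) =
      aeval (fun i => Ideal.Quotient.mkₐ ℂ I u * Ideal.Quotient.mkₐ ℂ I (X i)) F := by
    have h3 : (aeval (fun i => Ideal.Quotient.mkₐ ℂ I u * Ideal.Quotient.mkₐ ℂ I (X i)) :
        MvPolynomial (Fin (N + 1)) ℂ →ₐ[ℂ] _) =
        ((Ideal.Quotient.mkₐ ℂ I).comp (aeval f)).comp (aeval G) := by
      refine algHom_ext fun i => ?_
      simp only [aeval_X, AlgHom.comp_apply]
      exact (h1 i).symm
    rw [h3]
    rfl
  have h4 : (aeval (fun i => Ideal.Quotient.mkₐ ℂ I (X i)) :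
      MvPolynomial (Fin (N + 1)) ℂ →ₐ[ℂ] _) = Ideal.Quotient.mkₐ ℂ I := by
    refine algHom_ext fun i => ?_
    simp only [aeval_X]
  rw [aeval_mul_left hF, h4] at h2
  show Ideal.Quotient.mkₐ ℂ I (aeval f (aeval G F)) = Ideal.Quotient.mkₐ ℂ I (u ^ m * F)
  rw [h2, map_mul, map_pow]

/-- `u ^ (a d)` comes from the image -/
theorem BirData.U_sub (h : BirData I d a b f u G) :
    aeval f (aeval G u) - u ^ (a * d) ∈ I := by
  have h1 := h.comp h.uform
  rw [← h.deg, pow_succ]
  exact h1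

theorem BirData.U_notMem (h : BirData I d a b f u G) (hI : I.IsPrime) :
    aeval G u ∉ I.comap (aeval f : MvPolynomial (Fin (M + 1)) ℂ →ₐ[ℂ]
      MvPolynomial (Fin (N + 1)) ℂ) := by
  intro h1
  rw [Ideal.mem_comap] at h1
  have h2 := sub_mem h1 h.U_sub
  rw [sub_sub_cancel] at h2
  exact h.notMem (hI.mem_of_pow_mem _ h2)

/-- lifting of points -/
theorem BirData.lift (h : BirData I d a b f u G) (hIh : Hmg I) (y : Fin (M + 1) → ℂ)
    (hy : ∀ F ∈ I.comap (aeval f : MvPolynomial (Fin (M + 1)) ℂ →ₐ[ℂ]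
      MvPolynomial (Fin (N + 1)) ℂ), eval y F = 0) (hy0 : y ≠ 0)
    (hU : eval y (aeval G u) ≠ 0) :
    ∃ x : Fin (N + 1) → ℂ, (∀ F ∈ I, eval x F = 0) ∧ (∀ j, eval x (f j) = y j) ∧
      eval x u ≠ 0 := by
  have ha : 1 ≤ a := by
    rcases Nat.eq_zero_or_pos a with h0 | h0
    · have := h.deg
      rw [h0, zero_mul] at this
      omega
    · exact h0
  have hd : 1 ≤ d := by
    rcases Nat.eq_zero_or_pos d with h0 | h0
    · have := h.deg
      rw [h0, mul_zero] at this
      omega
    · exact h0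
  obtain ⟨j0, hj0⟩ := Function.ne_iff.1 hy0
  rw [Pi.zero_apply] at hj0
  -- the values `V_j = f_j(G(y))`
  have hV : ∀ i j, eval y (aeval G (f i)) * y j = eval y (aeval G (f j)) * y i := by
    intro i j
    have h1 : aeval G (f i) * X j - aeval G (f j) * X i ∈
        I.comap (aeval f : MvPolynomial (Fin (M + 1)) ℂ →ₐ[ℂ] MvPolynomial (Fin (N + 1)) ℂ) := by
      rw [Ideal.mem_comap]
      simp only [map_sub, map_mul, aeval_X]
      have h2 := h.comp (h.form i)
      have h3 := h.comp (h.form j)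
      have h4 : aeval f (aeval G (f i)) * f j - aeval f (aeval G (f j)) * f i =
          f j * (aeval f (aeval G (f i)) - u ^ d * f i) -
            f i * (aeval f (aeval G (f j)) - u ^ d * f j) := by ring
      rw [h4]
      exact sub_mem (Ideal.mul_mem_left _ _ h2) (Ideal.mul_mem_left _ _ h3)
    have h2 := hy _ h1
    simp only [map_sub, map_mul, eval_X] at h2
    exact sub_eq_zero.1 h2
  set lam : ℂ := eval y (aeval G (f j0)) / y j0 with hlam
  have hVl : ∀ j, eval y (aeval G (f j)) = lam * y j := by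
    intro j
    have h1 := hV j0 j
    rw [hlam, div_mul_eq_mul_div, h1, mul_div_assoc, div_self hj0, mul_one]
  have hla : lam ^ a = eval y (aeval G u) := by
    have h1 : (aeval G (f j0)) ^ a - aeval G u * X j0 ^ a ∈
        I.comap (aeval f : MvPolynomial (Fin (M + 1)) ℂ →ₐ[ℂ] MvPolynomial (Fin (N + 1)) ℂ) := by
      rw [Ideal.mem_comap]
      simp only [map_sub, map_mul, map_pow, aeval_X]
      rw [← Ideal.Quotient.eq_zero_iff_mem]
      have h2 := (Ideal.Quotient.mk_eq_mk_iff_sub_mem _ _).2 (h.comp (h.form j0))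
      have h3 := (Ideal.Quotient.mk_eq_mk_iff_sub_mem _ _).2 h.U_sub
      rw [map_sub, map_mul, map_pow, map_pow, h2, h3, map_mul, map_pow, map_pow]
      ring
    have h2 := hy _ h1
    simp only [map_sub, map_mul, map_pow, eval_X] at h2
    rw [hVl, mul_pow] at h2
    have h3 : (lam ^ a - eval y (aeval G u)) * y j0 ^ a = 0 := by linear_combination h2
    rcases mul_eq_zero.1 h3 with h4 | h4
    · exact sub_eq_zero.1 h4
    · exact absurd (pow_eq_zero_iff (by omega) |>.1 h4) hj0
  have hlam0 : lam ≠ 0 := by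
    intro h0
    rw [h0, zero_pow (by omega)] at hla
    exact hU hla.symm
  obtain ⟨c, hc⟩ := IsAlgClosed.exists_pow_nat_eq lam (show 0 < d by omega)
  have hc0 : c ≠ 0 := by
    rintro rfl
    rw [zero_pow (by omega)] at hc
    exact hlam0 hc.symm
  -- evaluation at the lifted point
  have hev : ∀ {F : MvPolynomial (Fin (N + 1)) ℂ} {m : ℕ}, F.IsHomogeneous m →
      eval (fun i => c⁻¹ * eval y (G i)) F = c⁻¹ ^ m * eval y (aeval G F) := by
    intro F m hF
    have h1 := aeval_mul_left hF c⁻¹ (fun i => eval y (G i))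
    have h2 : aeval (fun i => eval y (G i)) F = eval y (aeval G F) := by
      have h3 : (aeval (fun i => eval y (G i)) : MvPolynomial (Fin (N + 1)) ℂ →ₐ[ℂ] ℂ) =
          (aeval y : MvPolynomial (Fin (M + 1)) ℂ →ₐ[ℂ] ℂ).comp (aeval G) := by
        refine algHom_ext fun i => ?_
        simp only [aeval_X, AlgHom.comp_apply]
        rfl
      rw [h3]
      rfl
    rw [h2] at h1
    exact h1
  refine ⟨fun i => c⁻¹ * eval y (G i), fun F hF => ?_, fun j => ?_, ?_⟩
  · rw [← sum_homogeneousComponent F, map_sum]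
    refine Finset.sum_eq_zero fun m _ => ?_
    have h1 : homogeneousComponent m F ∈ I := hIh F hF m
    have h2 := homogeneousComponent_isHomogeneous m F
    rw [hev h2]
    have h3 : aeval G (homogeneousComponent m F) ∈
        I.comap (aeval f : MvPolynomial (Fin (M + 1)) ℂ →ₐ[ℂ] MvPolynomial (Fin (N + 1)) ℂ) := by
      rw [Ideal.mem_comap]
      have h4 := h.comp h2
      have h5 := add_mem h4 (Ideal.mul_mem_left I (u ^ m) h1)
      rwa [sub_add_cancel] at h5
    rw [hy _ h3, mul_zero]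
  · rw [hev (h.form j), hVl, inv_pow, hc, ← mul_assoc, inv_mul_cancel₀ hlam0, one_mul]
  · rw [hev h.uform]
    exact mul_ne_zero (pow_ne_zero _ (inv_ne_zero hc0)) hU

end Pool.Agent.TH880.NF
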