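import Pool.Agent.W601.Curve.Main

/-! The curve inequality with lower bounds for the lengths (after `Pool.Agent.W601.Curve.Main`). -/

set_option autoImplicit false

open MvPolynomial Filter Topology

namespace Pool.Agent.TH880.NF

open Pool.Agent.W607 Pool.Agent.W601.Curve

/-- The curve inequality of `Pool.Agent.W601.Curve.curve_ineq`, with lower bounds `b q M` for the
lengths of the infinitesimal neighbourhoods in place of these lengths themselves. -/
theorem curve_ineq_low {N n : ℕ} (I : Ideal (MvPolynomial (Fin (N + 1)) ℂ))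
    (ℓ : MvPolynomial (Fin (N + 1)) ℂ) (hℓ : ℓ.IsHomogeneous 1) (E s : ℕ) (hs : 1 ≤ s)
    (w : Fin n → Fin (N + 1) → ℂ) (hinj : Function.Injective w) (hw : ∀ q, eval (w q) ℓ = 1)
    (hsep : ∀ q (f : MvPolynomial (Fin (N + 1)) ℂ), ∃ F : MvPolynomial (Fin (N + 1)) ℂ,
      F.IsHomogeneous E ∧ F - f ∈ I ⊔ Ideal.span {ℓ - 1} ⊔ (mw (w q)) ^ s ∧
      ∀ q', q' ≠ q → F ∈ I ⊔ Ideal.span {ℓ - 1} ⊔ (mw (w q')) ^ s)
    (P : Ideal (MvPolynomial (Fin (N + 1)) ℂ)) (hP : P.IsPrime) (hIP : I ≤ P)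
    (e : ℝ) (he : Tendsto (fun t : ℕ => (hilb P t : ℝ) / t) atTop (𝓝 e))
    (b : Fin n → ℕ → ℕ) (hb : ∀ q M, b q M ≤ len P (w q) M) (m : Fin n → ℝ)
    (hm : ∀ q, Tendsto (fun M : ℕ => 2 * (b q M : ℝ) / (M : ℝ) ^ 2) atTop (𝓝 (m q))) :
    ((s : ℝ) - 1) * ∑ q, m q ≤ e * E := by
  classical
  have he0 : 0 ≤ e := ge_of_tendsto' he fun t => by positivity
  have hm0 : ∀ q, 0 ≤ m q := fun q => ge_of_tendsto' (hm q) fun t => by positivity
  have hR0 : 0 ≤ e * E := by positivity
  set J : Ideal (MvPolynomial (Fin (N + 1)) ℂ) := P ⊔ Ideal.span {ℓ - 1} with hJ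
  have hPJ : P ≤ J := le_sup_left
  have hℓJ : ℓ - 1 ∈ J := Ideal.mem_sup_right (Ideal.mem_span_singleton_self _)
  have hℓm : ∀ q, ℓ - 1 ∈ mw (w q) := by
    intro q
    have := sub_C_eval_mem (w q) ℓ
    rwa [hw, C_1] at this
  set a : Fin n → ℕ → ℕ := fun q j =>
    Module.finrank ℂ (MvPolynomial (Fin (N + 1)) ℂ ⧸ (J ⊔ (mw (w q)) ^ j)) with ha
  have hfinJ : ∀ q j, Module.Finite ℂ (MvPolynomial (Fin (N + 1)) ℂ ⧸ (J ⊔ (mw (w q)) ^ j)) :=
    fun q j => finite_quot_of_le (w q) j _ le_sup_right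
  have hfinP : ∀ q j, Module.Finite ℂ (MvPolynomial (Fin (N + 1)) ℂ ⧸ (P ⊔ (mw (w q)) ^ j)) :=
    fun q j => finite_quot_of_le (w q) j _ le_sup_right
  -- (ii) lengths
  have hlen : ∀ q M, len P (w q) M ≤ ∑ j ∈ Finset.range M, a q (j + 1) := by
    intro q M
    induction M with
    | zero =>
      have : Subsingleton (MvPolynomial (Fin (N + 1)) ℂ ⧸ (P ⊔ (mw (w q)) ^ 0)) := by
        rw [Ideal.Quotient.subsingleton_iff]; simp
      simp only [Finset.range_zero, Finset.sum_empty]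
      exact (Module.finrank_zero_of_subsingleton).le
    | succ M ih =>
      rw [Finset.sum_range_succ]
      have h1 := finrank_le_add (A := P ⊔ (mw (w q)) ^ M) (B := P ⊔ (mw (w q)) ^ (M + 1)) (ℓ - 1)
        (by
          intro x hx
          obtain ⟨y, hy, z, hz, rfl⟩ := Submodule.mem_sup.1 hx
          rw [mul_add]
          refine add_mem (Ideal.mem_sup_left (Ideal.mul_mem_left _ _ hy))
            (Ideal.mem_sup_right ?_)
          rw [pow_succ']
          exact Ideal.mul_mem_mul (hℓm q) hz) (hfinP q M) (hfinP q (M + 1))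
      have h2 : P ⊔ (mw (w q)) ^ (M + 1) ⊔ Ideal.span {ℓ - 1} = J ⊔ (mw (w q)) ^ (M + 1) := by
        rw [hJ, sup_assoc, sup_assoc, sup_comm (Ideal.span {ℓ - 1})]
      rw [h2] at h1
      exact h1.trans (Nat.add_le_add_right ih _)
  rcases Nat.eq_or_lt_of_le hs with h1s | hs2
  · rw [← h1s]; simpa using hR0
  obtain ⟨k, rfl⟩ : ∃ k, s = k + 1 := ⟨s - 1, by omega⟩
  have hk : 1 ≤ k := by omega
  by_cases hall : ∀ q, m q = 0
  · simp only [hall, Finset.sum_const_zero, mul_zero]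
    exact hR0
  -- (iii) the separating form
  have hF : ∃ F : MvPolynomial (Fin (N + 1)) ℂ, F.IsHomogeneous E ∧ F ∉ P ∧
      ∀ q, F ∈ J ⊔ (mw (w q)) ^ k := by
    by_contra hcon
    push Not at hcon
    apply hall
    intro q
    have hle : (mw (w q)) ^ k ≤ J ⊔ (mw (w q)) ^ (k + 1) := by
      intro g hg
      obtain ⟨F, hFh, hFg, hFq⟩ := hsep q g
      have hIJ : I ⊔ Ideal.span {ℓ - 1} ≤ J := sup_le_sup hIP le_rfl
      have hFg' : F - g ∈ J ⊔ (mw (w q)) ^ (k + 1) := (sup_le_sup hIJ le_rfl) hFg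
      have hFP : F ∈ P := by
        by_contra hFP
        obtain ⟨q', hq'⟩ := hcon F hFh hFP
        apply hq'
        have hmono : ∀ q, J ⊔ (mw (w q)) ^ (k + 1) ≤ J ⊔ (mw (w q)) ^ k := fun q =>
          sup_le_sup le_rfl (Ideal.pow_le_pow_right (Nat.le_succ k))
        by_cases hqq : q' = q
        · subst hqq
          have : F = (F - g) + g := by ring
          rw [this]
          exact add_mem (hmono _ hFg') (Ideal.mem_sup_right hg)
        · exact hmono _ ((sup_le_sup hIJ le_rfl) (hFq q' hqq))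
      have : g = F - (F - g) := by ring
      rw [this]
      exact sub_mem (Ideal.mem_sup_left (hPJ hFP)) hFg'
    have hbound : ∀ M, a q M ≤ a q k := fun M =>
      finrank_mono (sup_le le_sup_left (pow_le_sup J (mw (w q)) k hle M)) (hfinJ q k)
    have hlenb : ∀ M, (b q M : ℝ) ≤ M * a q k := by
      intro M
      have h1 := ((hb q M).trans (hlen q M)).trans (Finset.sum_le_sum fun j _ => hbound (j + 1))
      rw [Finset.sum_const, Finset.card_range, smul_eq_mul] at h1
      exact_mod_cast h1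
    refine le_antisymm ?_ (hm0 q)
    have hlim : Tendsto (fun M : ℕ => (2 * (a q k : ℝ)) / M) atTop (𝓝 0) :=
      tendsto_const_div_atTop_nhds_zero_nat _
    refine le_of_tendsto_of_tendsto (hm q) hlim ?_
    filter_upwards [eventually_gt_atTop 0] with M hM
    have hM' : (0 : ℝ) < M := by exact_mod_cast hM
    rw [div_le_div_iff₀ (by positivity) hM']
    have := hlenb M
    nlinarith [mul_le_mul_of_nonneg_right this hM'.le]
  obtain ⟨F, hFh, hFP, hFJ⟩ := hF
  -- (v)
  have hA : ∀ t : ℕ, 1 ≤ t → ((∑ q, a q (k * t) : ℕ) : ℝ) ≤ e * E * t := by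
    intro t ht
    obtain ⟨T0, hT0⟩ := step P J hP hPJ ℓ hℓ hℓJ w hinj (k * t) (E * t) (F ^ t)
      (hFh.pow t) (fun h => hFP (hP.mem_of_pow_mem t h)) (fun q => by
        rw [pow_mul]
        exact pow_mem_sup _ _ _ (hFJ q) t)
    set A : ℕ := ∑ q, a q (k * t) with hAdef
    have hstep : ∀ T ≥ T0, A + hilb P T ≤ hilb P (T + E * t) := hT0
    rcases Nat.eq_zero_or_pos E with hE | hE
    · subst hE
      have := hstep T0 le_rfl
      rw [zero_mul, add_zero] at this
      have hA0 : A = 0 := by omega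
      rw [hA0]; simp
    have hind : ∀ j : ℕ, j * A ≤ hilb P (T0 + j * (E * t)) := by
      intro j
      induction j with
      | zero => simp
      | succ j ih =>
        have h1 := hstep (T0 + j * (E * t)) (by omega)
        have h2 : T0 + (j + 1) * (E * t) = T0 + j * (E * t) + E * t := by ring
        rw [h2]
        have h3 : (j + 1) * A = A + j * A := by ring
        omega
    have hD : 1 ≤ E * t := Nat.mul_pos hE ht
    have hlim1 := tendsto_aux A (E * t) T0 hD
    have hsub : Tendsto (fun j : ℕ => T0 + j * (E * t)) atTop atTop := by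
      refine tendsto_atTop_mono (f := fun j => j) (fun j => ?_) tendsto_id
      nlinarith
    have hlim2 := he.comp hsub
    have hle : (A : ℝ) / ((E * t : ℕ) : ℝ) ≤ e := by
      refine le_of_tendsto_of_tendsto' hlim1 hlim2 fun j => ?_
      show ((j * A : ℕ) : ℝ) / ((T0 + j * (E * t) : ℕ) : ℝ) ≤
        (hilb P (T0 + j * (E * t)) : ℝ) / ((T0 + j * (E * t) : ℕ) : ℝ)
      refine div_le_div_of_nonneg_right ?_ (Nat.cast_nonneg _)
      exact_mod_cast hind j
    have hDpos : (0 : ℝ) < ((E * t : ℕ) : ℝ) := by exact_mod_cast hD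
    rw [div_le_iff₀ hDpos] at hle
    push_cast at hle ⊢
    linarith
  -- (vi)
  have hkpos : (0 : ℝ) < k := by exact_mod_cast hk
  have hA2 : ∀ j : ℕ, ((∑ q, a q j : ℕ) : ℝ) ≤ e * E * ((j : ℝ) / k + 1) := by
    intro j
    have h1 : j ≤ k * (j / k + 1) := by
      have := Nat.div_add_mod j k
      have h2 := Nat.mod_lt j hk
      rw [mul_add, mul_one]
      omega
    have h2 : ∑ q, a q j ≤ ∑ q, a q (k * (j / k + 1)) := Finset.sum_le_sum fun q _ =>
      finrank_mono (sup_le_sup le_rfl (Ideal.pow_le_pow_right h1)) (hfinJ q _)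
    have h3 := hA (j / k + 1) (Nat.le_add_left 1 _)
    have h4 : (((j / k + 1 : ℕ)) : ℝ) ≤ (j : ℝ) / k + 1 := by
      push_cast
      have : ((j / k : ℕ) : ℝ) ≤ (j : ℝ) / k := Nat.cast_div_le
      linarith
    calc ((∑ q, a q j : ℕ) : ℝ) ≤ ((∑ q, a q (k * (j / k + 1)) : ℕ) : ℝ) := by exact_mod_cast h2
      _ ≤ e * E * ((j / k + 1 : ℕ) : ℝ) := h3
      _ ≤ e * E * ((j : ℝ) / k + 1) := mul_le_mul_of_nonneg_left h4 hR0
  have hsum : ∀ M : ℕ, ∑ q, (b q M : ℝ) ≤
      e * E * ((M : ℝ) * (M + 1) / (2 * k) + M) := by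
    intro M
    have h1 : ∑ q, (b q M : ℝ) ≤ ∑ j ∈ Finset.range M, ((∑ q, a q (j + 1) : ℕ) : ℝ) := by
      have : ∑ q, b q M ≤ ∑ j ∈ Finset.range M, ∑ q, a q (j + 1) := by
        rw [Finset.sum_comm]
        exact Finset.sum_le_sum fun q _ => (hb q M).trans (hlen q M)
      exact_mod_cast this
    refine h1.trans ?_
    clear h1
    induction M with
    | zero => simp
    | succ M ih =>
      rw [Finset.sum_range_succ]
      have h2 := hA2 (M + 1)
      have h3 : e * E * (((M + 1 : ℕ) : ℝ) * (((M + 1 : ℕ) : ℝ) + 1) / (2 * k) + ((M + 1 : ℕ) : ℝ)) =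
          e * E * ((M : ℝ) * (M + 1) / (2 * k) + M) + e * E * (((M + 1 : ℕ) : ℝ) / k + 1) := by
        push_cast
        field_simp
        ring
      rw [h3]
      exact add_le_add ih h2
  have hfin : ∑ q, m q ≤ e * E / k := by
    have hL : Tendsto (fun M : ℕ => ∑ q, 2 * (b q M : ℝ) / (M : ℝ) ^ 2) atTop
        (𝓝 (∑ q, m q)) := tendsto_finsetSum _ fun q _ => hm q
    have hU : Tendsto (fun M : ℕ => e * E * ((1 + 1 / (M : ℝ)) / k + 2 / (M : ℝ))) atTop
        (𝓝 (e * E * ((1 + 0) / k + 0))) :=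
      (((tendsto_const_nhds.add (tendsto_const_div_atTop_nhds_zero_nat (1 : ℝ))).div_const _).add
        (tendsto_const_div_atTop_nhds_zero_nat (2 : ℝ))).const_mul _
    have hres := le_of_tendsto_of_tendsto hL hU (by
      filter_upwards [eventually_gt_atTop 0] with M hM
      have hM' : (0 : ℝ) < M := by exact_mod_cast hM
      have h1 := hsum M
      have h2 : ∑ q, 2 * (b q M : ℝ) / (M : ℝ) ^ 2 =
          (2 / (M : ℝ) ^ 2) * ∑ q, (b q M : ℝ) := by
        rw [Finset.mul_sum]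
        exact Finset.sum_congr rfl fun q _ => by ring
      rw [h2]
      have h3 : (2 / (M : ℝ) ^ 2) * ∑ q, (b q M : ℝ) ≤
          (2 / (M : ℝ) ^ 2) * (e * E * ((M : ℝ) * (M + 1) / (2 * k) + M)) :=
        mul_le_mul_of_nonneg_left h1 (by positivity)
      refine h3.trans (le_of_eq ?_)
      field_simp)
    have h4 : e * E * ((1 + 0) / k + 0) = e * E / k := by
      rw [add_zero, add_zero]; ring
    rwa [h4] at hres
  rw [le_div_iff₀ hkpos] at hfin
  push_cast
  linarith

end Pool.Agent.TH880.NF
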