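import Pool.Agent.TH880.NF.Bir

/-!
Density: an open condition which holds for one tuple of points of the chart `ℓ = 1` of an
irreducible projective scheme holds for a tuple of points outside a given hypersurface.
-/

set_option autoImplicit false

open MvPolynomial Filter Topology

namespace Pool.Agent.TH880.NF

open Pool.Agent.W607 Pool.Agent.W601.Curve

variable {M n : ℕ}

theorem exists_zero_notMem (J : Ideal (MvPolynomial (Fin (M + 1)) ℂ)) (hJ : J.IsPrime)
    (F : MvPolynomial (Fin (M + 1)) ℂ) (hF : F ∉ J) :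
    ∃ z : Fin (M + 1) → ℂ, (∀ g ∈ J, eval z g = 0) ∧ eval z F ≠ 0 := by
  by_contra hcon
  push Not at hcon
  apply hF
  rw [← MvPolynomial.IsPrime.vanishingIdeal_zeroLocus (K := ℂ) J]
  intro z hz
  exact hcon z hz

theorem eval_smul {F : MvPolynomial (Fin (M + 1)) ℂ} {m : ℕ} (hF : F.IsHomogeneous m) (c : ℂ)
    (z : Fin (M + 1) → ℂ) : eval (fun i => c * z i) F = c ^ m * eval z F :=
  aeval_mul_left hF c z

theorem exists_chart_point (J : Ideal (MvPolynomial (Fin (M + 1)) ℂ)) (hJ : J.IsPrime)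
    (hJh : Hmg J) (ℓ : MvPolynomial (Fin (M + 1)) ℂ) (hℓ : ℓ.IsHomogeneous 1)
    (F U : MvPolynomial (Fin (M + 1)) ℂ) {m : ℕ} (hU : U.IsHomogeneous m) (hUJ : U ∉ J)
    (y0 : Fin (M + 1) → ℂ) (hy0 : ∀ g ∈ J, eval y0 g = 0) (hy1 : eval y0 ℓ = 1)
    (hF : eval y0 F ≠ 0) :
    ∃ y : Fin (M + 1) → ℂ, (∀ g ∈ J, eval y g = 0) ∧ eval y ℓ = 1 ∧ eval y F ≠ 0 ∧
      eval y U ≠ 0 := by
  set D := F.totalDegree with hD
  set Fh : MvPolynomial (Fin (M + 1)) ℂ :=
    ∑ i ∈ Finset.range (D + 1), ℓ ^ (D - i) * homogeneousComponent i F with hFh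
  have hev : ∀ z : Fin (M + 1) → ℂ, eval z F =
      ∑ i ∈ Finset.range (D + 1), eval z (homogeneousComponent i F) := by
    intro z
    conv_lhs => rw [← sum_homogeneousComponent F]
    rw [map_sum]
  have hFhJ : Fh ∉ J := by
    intro h
    apply hF
    have h1 := hy0 _ h
    rw [hFh, map_sum] at h1
    rw [hev, ← h1]
    refine Finset.sum_congr rfl fun i _ => ?_
    rw [map_mul, map_pow, hy1, one_pow, one_mul]
  have hℓJ : ℓ ∉ J := fun h => by
    have := hy0 _ h
    rw [hy1] at this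
    exact one_ne_zero this
  have hprod : Fh * U * ℓ ∉ J := by
    intro h
    rcases hJ.mem_or_mem h with h | h
    · rcases hJ.mem_or_mem h with h | h
      · exact hFhJ h
      · exact hUJ h
    · exact hℓJ h
  obtain ⟨z, hz, hz0⟩ := exists_zero_notMem J hJ _ hprod
  rw [map_mul, map_mul] at hz0
  have hc : eval z ℓ ≠ 0 := right_ne_zero_of_mul hz0
  have hzU : eval z U ≠ 0 := right_ne_zero_of_mul (left_ne_zero_of_mul hz0)
  have hzF : eval z Fh ≠ 0 := left_ne_zero_of_mul (left_ne_zero_of_mul hz0)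
  set c := eval z ℓ with hcdef
  refine ⟨fun i => c⁻¹ * z i, fun g hg => ?_, ?_, ?_, ?_⟩
  · rw [← sum_homogeneousComponent g, map_sum]
    refine Finset.sum_eq_zero fun k _ => ?_
    rw [eval_smul (homogeneousComponent_isHomogeneous k g), hz _ (hJh g hg k), mul_zero]
  · rw [eval_smul hℓ, pow_one, ← hcdef, inv_mul_cancel₀ hc]
  · rw [hev]
    have h1 : ∑ i ∈ Finset.range (D + 1), eval (fun i => c⁻¹ * z i) (homogeneousComponent i F) =
        (c⁻¹) ^ D * eval z Fh := by
      rw [hFh, map_sum, Finset.mul_sum]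
      refine Finset.sum_congr rfl fun i hi => ?_
      rw [eval_smul (homogeneousComponent_isHomogeneous i F), map_mul, map_pow, ← hcdef]
      have hi' : i ≤ D := Nat.lt_succ_iff.1 (Finset.mem_range.1 hi)
      have h2 : (c⁻¹) ^ D * c ^ (D - i) = (c⁻¹) ^ i := by
        have h3 : (c⁻¹) ^ D = (c⁻¹) ^ i * (c⁻¹) ^ (D - i) := by
          rw [← pow_add]; congr 1; omega
        rw [h3, mul_assoc, ← mul_pow, inv_mul_cancel₀ hc, one_pow, mul_one]
      rw [← mul_assoc, h2]
    rw [h1]
    exact mul_ne_zero (pow_ne_zero _ (inv_ne_zero hc)) hzF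
  · rw [eval_smul hU]
    exact mul_ne_zero (pow_ne_zero _ (inv_ne_zero hc)) hzU

theorem exists_chart_tuple (J : Ideal (MvPolynomial (Fin (M + 1)) ℂ)) (hJ : J.IsPrime)
    (hJh : Hmg J) (ℓ : MvPolynomial (Fin (M + 1)) ℂ) (hℓ : ℓ.IsHomogeneous 1)
    (H : MvPolynomial (Fin n × Fin (M + 1)) ℂ)
    (U : MvPolynomial (Fin (M + 1)) ℂ) {m : ℕ} (hU : U.IsHomogeneous m) (hUJ : U ∉ J)
    (y0 : Fin n → Fin (M + 1) → ℂ) (hy0 : ∀ q, ∀ g ∈ J, eval (y0 q) g = 0)
    (hy1 : ∀ q, eval (y0 q) ℓ = 1)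
    (hH : eval (fun p => y0 p.1 p.2) H ≠ 0) :
    ∃ y : Fin n → Fin (M + 1) → ℂ, (∀ q, ∀ g ∈ J, eval (y q) g = 0) ∧
      (∀ q, eval (y q) ℓ = 1) ∧ eval (fun p => y p.1 p.2) H ≠ 0 ∧ ∀ q, eval (y q) U ≠ 0 := by
  classical
  have key : ∀ s : Finset (Fin n), ∃ y : Fin n → Fin (M + 1) → ℂ,
      (∀ q, ∀ g ∈ J, eval (y q) g = 0) ∧ (∀ q, eval (y q) ℓ = 1) ∧
      eval (fun p => y p.1 p.2) H ≠ 0 ∧ ∀ q ∈ s, eval (y q) U ≠ 0 := by
    intro s
    induction s using Finset.induction_on with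
    | empty => exact ⟨y0, hy0, hy1, hH, by simp⟩
    | insert q s hq ih =>
      obtain ⟨y, h1, h2, h3, h4⟩ := ih
      set F : MvPolynomial (Fin (M + 1)) ℂ :=
        aeval (fun p : Fin n × Fin (M + 1) =>
          if p.1 = q then (X p.2 : MvPolynomial (Fin (M + 1)) ℂ) else C (y p.1 p.2)) H with hF
      have hev : ∀ z : Fin (M + 1) → ℂ, eval z F =
          eval (fun p => Function.update y q z p.1 p.2) H := by
        intro z
        have h5 : ((aeval z : MvPolynomial (Fin (M + 1)) ℂ →ₐ[ℂ] ℂ).comp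
            (aeval (fun p : Fin n × Fin (M + 1) =>
              if p.1 = q then (X p.2 : MvPolynomial (Fin (M + 1)) ℂ) else C (y p.1 p.2)))) =
            (aeval (fun p : Fin n × Fin (M + 1) => Function.update y q z p.1 p.2) :
              MvPolynomial (Fin n × Fin (M + 1)) ℂ →ₐ[ℂ] ℂ) := by
          refine algHom_ext fun p => ?_
          simp only [AlgHom.comp_apply, aeval_X]
          by_cases hp : p.1 = q
          · rw [if_pos hp, aeval_X, hp, Function.update_self]
          · rw [if_neg hp, Function.update_of_ne hp]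
            exact aeval_C _ _
        exact DFunLike.congr_fun h5 H
      obtain ⟨z, hz1, hz2, hz3, hz4⟩ := exists_chart_point J hJ hJh ℓ hℓ F U hU hUJ (y q)
        (h1 q) (h2 q) (by
          rw [hev, Function.update_eq_self]
          exact h3)
      rw [hev] at hz3
      refine ⟨Function.update y q z, fun q' => ?_, fun q' => ?_, hz3, fun q' hq' => ?_⟩
      · by_cases h : q' = q
        · subst h; rwa [Function.update_self]
        · rw [Function.update_of_ne h]; exact h1 q'
      · by_cases h : q' = q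
        · subst h; rwa [Function.update_self]
        · rw [Function.update_of_ne h]; exact h2 q'
      · by_cases h : q' = q
        · subst h; rwa [Function.update_self]
        · rw [Function.update_of_ne h]
          exact h4 q' ((Finset.mem_insert.1 hq').resolve_left h)
  obtain ⟨y, h1, h2, h3, h4⟩ := key Finset.univ
  exact ⟨y, h1, h2, h3, fun q => h4 q (Finset.mem_univ q)⟩

end Pool.Agent.TH880.NF
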