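import Pool.Agent.TH880.NF.Curve

/-!
Local comparison at a point where the (homogeneous) ring map `φ : ℂ[y] → ℂ[x]/I` is unramified:
the map `ℂ[y] → ℂ[x]/(I + 𝔪_w^r)` is onto for all `r` as soon as it is onto for `r = 2`, so the
lengths of infinitesimal neighbourhoods do not decrease under `P ↦ φ⁻¹ P`.
-/

set_option autoImplicit false

open MvPolynomial Filter Topology

namespace Pool.Agent.TH880.NF

open Pool.Agent.W607 Pool.Agent.W601.Curve

section Abs

variable {R S : Type*} [CommRing R] [CommRing S]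

theorem mem_sup_pow_of_le {I n : Ideal S} {x : S} {r r' : ℕ} (h : r ≤ r')
    (hx : x ∈ I ⊔ n ^ r') : x ∈ I ⊔ n ^ r :=
  (sup_le_sup (le_refl I) (Ideal.pow_le_pow_right h)) hx

theorem step_pow (φ : R →+* S) (I n : Ideal S)
    (h : ∀ x ∈ n, ∃ a : R, x - φ a ∈ I ⊔ n ^ 2) (r : ℕ) :
    ∀ x ∈ n ^ (r + 1), ∃ a : R, x - φ a ∈ I ⊔ n ^ (r + 2) := by
  induction r with
  | zero =>
    intro x hx
    rw [zero_add, pow_one] at hx
    exact h x hx
  | succ r ih =>
    intro x hx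
    rw [pow_succ] at hx
    refine Submodule.mul_induction_on hx ?_ ?_
    · intro a ha b hb
      obtain ⟨p, hp⟩ := ih a ha
      obtain ⟨q, hq⟩ := h b hb
      refine ⟨p * q, ?_⟩
      have h1 : a * b - φ (p * q) = (a - φ p) * b + φ p * (b - φ q) := by
        rw [map_mul]; ring
      rw [h1]
      refine add_mem ?_ ?_
      · obtain ⟨i, hi, z, hz, hiz⟩ := Submodule.mem_sup.1 hp
        rw [← hiz, add_mul]
        refine add_mem (Ideal.mem_sup_left (Ideal.mul_mem_right _ _ hi)) (Ideal.mem_sup_right ?_)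
        have : n ^ (r + 1 + 2) = n ^ (r + 2) * n := by rw [← pow_succ]
        rw [this]
        exact Ideal.mul_mem_mul hz hb
      · have h2 : φ p ∈ I ⊔ n ^ (r + 1) := by
          have : φ p = a - (a - φ p) := by ring
          rw [this]
          refine sub_mem (Ideal.mem_sup_right ha) ?_
          exact mem_sup_pow_of_le (by omega) hp
        obtain ⟨i, hi, z, hz, hiz⟩ := Submodule.mem_sup.1 h2
        obtain ⟨i', hi', z', hz', hiz'⟩ := Submodule.mem_sup.1 hq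
        rw [← hiz, ← hiz']
        have h3 : (i + z) * (i' + z') = (i * (i' + z') + i' * z) + z * z' := by ring
        rw [h3]
        refine add_mem (Ideal.mem_sup_left (add_mem (Ideal.mul_mem_right _ _ hi)
          (Ideal.mul_mem_right _ _ hi'))) (Ideal.mem_sup_right ?_)
        have : n ^ (r + 1 + 2) = n ^ (r + 1) * n ^ 2 := by rw [← pow_add]
        rw [this]
        exact Ideal.mul_mem_mul hz hz'
    · intro a b ⟨p, hp⟩ ⟨q, hq⟩
      refine ⟨p + q, ?_⟩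
      have h1 : a + b - φ (p + q) = (a - φ p) + (b - φ q) := by rw [map_add]; ring
      rw [h1]
      exact add_mem hp hq

/-- onto modulo `n ^ 2` implies onto modulo `n ^ r` -/
theorem onto_pow (φ : R →+* S) (I n : Ideal S)
    (h : ∀ x : S, ∃ a : R, x - φ a ∈ I ⊔ n ^ 2) (r : ℕ) (x : S) :
    ∃ a : R, x - φ a ∈ I ⊔ n ^ r := by
  induction r with
  | zero => exact ⟨0, by simp⟩
  | succ r ih =>
    obtain ⟨a, ha⟩ := ih
    rcases Nat.eq_zero_or_pos r with hr | hr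
    · subst hr
      obtain ⟨b, hb⟩ := h x
      exact ⟨b, mem_sup_pow_of_le (by omega) hb⟩
    · obtain ⟨k, rfl⟩ : ∃ k, r = k + 1 := ⟨r - 1, by omega⟩
      obtain ⟨i, hi, z, hz, hiz⟩ := Submodule.mem_sup.1 ha
      obtain ⟨b, hb⟩ := step_pow φ I n (fun x _ => h x) k z hz
      refine ⟨a + b, ?_⟩
      have h1 : x - φ (a + b) = i + (z - φ b) := by
        rw [map_add]
        linear_combination -hiz
      rw [h1]
      exact add_mem (Ideal.mem_sup_left hi) hb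

end Abs

variable {N M : ℕ}

/-- at a point where `u ≠ 0` the ring map is onto modulo `𝔪² + I` -/
theorem onto_two (φ : MvPolynomial (Fin (M + 1)) ℂ →ₐ[ℂ] MvPolynomial (Fin (N + 1)) ℂ)
    (I : Ideal (MvPolynomial (Fin (N + 1)) ℂ)) (u : MvPolynomial (Fin (N + 1)) ℂ)
    (G : Fin (N + 1) → MvPolynomial (Fin (M + 1)) ℂ) (hG : ∀ i, u * X i - φ (G i) ∈ I)
    (U : MvPolynomial (Fin (M + 1)) ℂ) (p : ℕ) (hp : 1 ≤ p) (hU : φ U - u ^ p ∈ I)
    (w : Fin (N + 1) → ℂ) (hw : eval w u ≠ 0) (F : MvPolynomial (Fin (N + 1)) ℂ) :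
    ∃ a, F - φ a ∈ I ⊔ (mw w) ^ 2 := by
  set c := eval w u with hc
  set ν := u - C c with hν
  have hνm : ν ∈ mw w := sub_C_eval_mem w u
  -- `u - c` is in the image
  have hp0 : (p : ℂ) * c ^ (p - 1) ≠ 0 := by
    have : (p : ℂ) ≠ 0 := by
      exact_mod_cast (show p ≠ 0 by omega)
    positivity
  obtain ⟨k, hk⟩ := Polynomial.powAddExpansion (C c : MvPolynomial (Fin (N + 1)) ℂ) ν p
  have hcν : C c + ν = u := by rw [hν]; ring
  rw [hcν] at hk
  have hA : ∃ A : MvPolynomial (Fin (M + 1)) ℂ, ν - φ A ∈ I ⊔ (mw w) ^ 2 := by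
    refine ⟨C ((p : ℂ) * c ^ (p - 1))⁻¹ * (U - C (c ^ p)), ?_⟩
    have h1 : ν - φ (C ((p : ℂ) * c ^ (p - 1))⁻¹ * (U - C (c ^ p))) =
        C ((p : ℂ) * c ^ (p - 1))⁻¹ * (-(φ U - u ^ p)) + -(C ((p : ℂ) * c ^ (p - 1))⁻¹ * k * ν ^ 2) := by
      have h2 : φ (C ((p : ℂ) * c ^ (p - 1))⁻¹ * (U - C (c ^ p))) =
          C ((p : ℂ) * c ^ (p - 1))⁻¹ * (φ U - C (c ^ p)) := by
        rw [map_mul, map_sub]
        have h3 : ∀ z : ℂ, φ (C z) = C z := fun z => φ.commutes z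
        rw [h3, h3]
      rw [h2]
      have h4 : (C ((p : ℂ) * c ^ (p - 1))⁻¹ : MvPolynomial (Fin (N + 1)) ℂ) *
          ((p : MvPolynomial (Fin (N + 1)) ℂ) * (C c) ^ (p - 1)) = 1 := by
        have h5 : ((p : MvPolynomial (Fin (N + 1)) ℂ) * (C c) ^ (p - 1)) =
            C ((p : ℂ) * c ^ (p - 1)) := by
          rw [map_mul, map_pow, map_natCast]
        rw [h5, ← map_mul, inv_mul_cancel₀ hp0, map_one]
      rw [map_pow]
      linear_combination (-C ((p : ℂ) * c ^ (p - 1))⁻¹) * hk - ν * h4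
    rw [h1]
    refine add_mem (Ideal.mem_sup_left (Ideal.mul_mem_left _ _ (neg_mem hU)))
      (Ideal.mem_sup_right (neg_mem (Ideal.mul_mem_left _ _ ?_)))
    exact Ideal.pow_mem_pow hνm 2
  obtain ⟨A, hA⟩ := hA
  have hC : ∀ z : ℂ, φ (C z) = C z := fun z => φ.commutes z
  have hX : ∀ i, ∃ a, X i - φ a ∈ I ⊔ (mw w) ^ 2 := by
    intro i
    have hνi : (X i - C (w i) : MvPolynomial (Fin (N + 1)) ℂ) ∈ mw w :=
      Ideal.subset_span ⟨i, rfl⟩
    refine ⟨C (w i) + C c⁻¹ * (G i - C (c * w i) - C (w i) * A), ?_⟩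
    have hcc : (C c⁻¹ * C c : MvPolynomial (Fin (N + 1)) ℂ) = 1 := by
      rw [← map_mul, inv_mul_cancel₀ hw, map_one]
    have h1 : X i - φ (C (w i) + C c⁻¹ * (G i - C (c * w i) - C (w i) * A)) =
        C c⁻¹ * (u * X i - φ (G i)) - C c⁻¹ * C (w i) * (ν - φ A) -
          C c⁻¹ * (ν * (X i - C (w i))) := by
      simp only [map_add, map_sub, map_mul, hC]
      linear_combination (C c⁻¹ * (-X i)) * hcν - (X i - C (w i)) * hcc
    rw [h1]
    refine sub_mem (sub_mem (Ideal.mem_sup_left (Ideal.mul_mem_left _ _ (hG i)))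
      (Ideal.mul_mem_left _ _ hA)) (Ideal.mem_sup_right (Ideal.mul_mem_left _ _ ?_))
    rw [pow_two]
    exact Ideal.mul_mem_mul hνm hνi
  induction F using MvPolynomial.induction_on with
  | C z => exact ⟨C z, by rw [hC, sub_self]; exact zero_mem _⟩
  | add a b ha hb =>
    obtain ⟨a', ha'⟩ := ha
    obtain ⟨b', hb'⟩ := hb
    refine ⟨a' + b', ?_⟩
    have : a + b - φ (a' + b') = (a - φ a') + (b - φ b') := by rw [map_add]; ring
    rw [this]
    exact add_mem ha' hb'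
  | mul_X a i ha =>
    obtain ⟨a', ha'⟩ := ha
    obtain ⟨b', hb'⟩ := hX i
    refine ⟨a' * b', ?_⟩
    have : a * X i - φ (a' * b') = X i * (a - φ a') + φ a' * (X i - φ b') := by
      rw [map_mul]; ring
    rw [this]
    exact add_mem (Ideal.mul_mem_left _ _ ha') (Ideal.mul_mem_left _ _ hb')

/-- comparison of lengths -/
theorem len_le (f : Fin (M + 1) → MvPolynomial (Fin (N + 1)) ℂ)
    (I : Ideal (MvPolynomial (Fin (N + 1)) ℂ)) (w : Fin (N + 1) → ℂ)
    (h : ∀ F : MvPolynomial (Fin (N + 1)) ℂ, ∃ a : MvPolynomial (Fin (M + 1)) ℂ,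
      F - (aeval f : MvPolynomial (Fin (M + 1)) ℂ →ₐ[ℂ] MvPolynomial (Fin (N + 1)) ℂ) a ∈
        I ⊔ (mw w) ^ 2)
    (P : Ideal (MvPolynomial (Fin (N + 1)) ℂ)) (hIP : I ≤ P) (r : ℕ) :
    len P w r ≤ len (P.comap (aeval f : MvPolynomial (Fin (M + 1)) ℂ →ₐ[ℂ]
      MvPolynomial (Fin (N + 1)) ℂ)) (fun j => eval w (f j)) r := by
  set φ : MvPolynomial (Fin (M + 1)) ℂ →ₐ[ℂ] MvPolynomial (Fin (N + 1)) ℂ := aeval f with hφ
  have hle : P.comap φ ⊔ (mw fun j => eval w (f j)) ^ r ≤ (P ⊔ (mw w) ^ r).comap φ := by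
    refine sup_le (Ideal.comap_mono le_sup_left) ?_
    have h1 : (mw fun j => eval w (f j)) ≤ (mw w).comap φ := by
      unfold mw
      rw [Ideal.span_le]
      rintro _ ⟨j, rfl⟩
      show φ (X j - C (eval w (f j))) ∈ mw w
      have hC : φ (C (eval w (f j))) = C (eval w (f j)) := φ.commutes _
      rw [map_sub, hC, hφ, aeval_X]
      exact sub_C_eval_mem w (f j)
    exact ((Ideal.pow_right_mono h1 r).trans (Ideal.le_comap_pow φ r)).trans
      (Ideal.comap_mono le_sup_right)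
  have hfin : Module.Finite ℂ (MvPolynomial (Fin (M + 1)) ℂ ⧸
      (P.comap φ ⊔ (mw fun j => eval w (f j)) ^ r)) :=
    finite_quot_of_le (fun j => eval w (f j)) r _ le_sup_right
  refine LinearMap.finrank_le_finrank_of_surjective
    (f := (Ideal.quotientMapₐ (P ⊔ (mw w) ^ r) φ hle).toLinearMap) ?_
  intro z
  obtain ⟨F, rfl⟩ := Ideal.Quotient.mk_surjective z
  obtain ⟨a, ha⟩ := onto_pow (φ : MvPolynomial (Fin (M + 1)) ℂ →+* MvPolynomial (Fin (N + 1)) ℂ)
    I (mw w) h r F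
  refine ⟨Ideal.Quotient.mk _ a, ?_⟩
  show Ideal.Quotient.mk (P ⊔ (mw w) ^ r) (φ a) = Ideal.Quotient.mk (P ⊔ (mw w) ^ r) F
  rw [Ideal.Quotient.mk_eq_mk_iff_sub_mem, ← neg_sub]
  exact neg_mem ((sup_le_sup hIP (le_refl _)) ha)

end Pool.Agent.TH880.NF
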